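import Pool.Agent.Helper92.W3CT

/-!
A Cannon-Thurston map exists for an infinite hyperbolic normal subgroup `H` of infinite index of a
non-hyperbolic hierarchically hyperbolic group `G` (a split extension of `ℤ³` by the cyclic group
of order three permuting the coordinates; `H` is the centre), although `H` is not hierarchically
quasiconvex with respect to any hierarchically hyperbolic group structure on `G`.
-/

set_option autoImplicit false

universe u v

open Pool.Agent.Helper92.CT

theorem Pool.Agent.Results.MP_e527be_al.CannonThurstonDisproof.result :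
    ∃ (G : Type) (_ : Group G) (𝔖 : HHG.{0, 0, 0} G) (H : Subgroup G),
      ¬ IsHyperbolicGroup G ∧
      H.Normal ∧ Infinite H ∧ H.index = 0 ∧ IsHyperbolicGroup H ∧
      (∀ 𝔖' : HHG.{u, v, 0} G, ¬ 𝔖'.S.HQC (H : Set G)) ∧
      CannonThurston 𝔖 H ∧
      ∀ p q : BPoint 𝔖.S, ¬ Remote p q :=
  ⟨W3, inferInstance, W3.std, W3.H, W3.not_hyperbolic, W3.H_normal, W3.H_infinite, W3.H_index,
    W3.H_hyperbolic, W3.not_hqc, W3.cannonThurston, W3.not_remote⟩
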